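import Pool.Agent.Helper88.GU.St

/-!
# Project GU, second hand-in (MP_b1e6de_al), module VF

Heights in `A[X]`.
-/

set_option autoImplicit false

namespace Pool.Agent.Helper7.GU2

open Polynomial
open Pool.Agent.Helper91.GU Pool.Agent.Helper88.GU

universe u

theorem hVF (hD3 : Pool.Agent.Helper91.GU.StD3.{u}) : Pool.Agent.Helper88.GU.StVF.{u} := by
  intro R A _ _ _ _ s₀ N h
  have hal : algebraMap R A[X] s₀ = C (algebraMap R A s₀) := rfl
  refine ⟨?_, ?_, ?_⟩
  · intro P hP hs
    have hp : (P.comap (C : A →+* A[X])).IsPrime := Ideal.IsPrime.comap C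
    have h1 := h.lt (P.comap C) hp (by
      rw [hal] at hs
      rw [Ideal.mem_comap]
      exact hs)
    have h2 := hD3 A P
    obtain ⟨k, hk⟩ := ENat.ne_top_iff_exists.1 h1.ne_top
    rw [← hk] at h1 h2
    have h3 : k < N := by exact_mod_cast h1
    refine h2.trans_lt ?_
    have h4 : k + 1 < N + 1 := Nat.succ_lt_succ h3
    exact_mod_cast h4
  · intro P hP
    have hp : (P.comap (C : A →+* A[X])).IsPrime := Ideal.IsPrime.comap C
    have h1 := h.le (P.comap C) hp
    have h2 := hD3 A P
    refine h2.trans ?_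
    push_cast
    exact add_le_add_left h1 1
  · intro P hP hs
    have hp : (P.comap (C : A →+* A[X])).IsPrime := Ideal.IsPrime.comap C
    have h1 := h.pos (P.comap C) hp (by
      rw [hal] at hs
      rw [Ideal.mem_comap]
      exact hs)
    rw [Order.one_le_iff_ne_zero, Ne, Ideal.height_eq_zero_iff] at h1 ⊢
    intro hmin
    apply h1
    obtain ⟨q, hq, hqp⟩ := Ideal.exists_minimalPrimes_le (bot_le : (⊥ : Ideal A) ≤ P.comap C)
    have hqP : q.IsPrime := hq.1.1
    have h3 : q.map C ≤ P := Ideal.map_le_iff_le_comap.2 hqp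
    have h4 : (q.map (C : A →+* A[X])).IsPrime := Ideal.isPrime_map_C_of_isPrime
    have h5 : P ≤ q.map C := hmin.2 ⟨h4, bot_le⟩ h3
    have h6 : P.comap C ≤ q := by
      intro a ha
      have h7 : C a ∈ q.map (C : A →+* A[X]) := h5 ha
      have h8 := Ideal.mem_map_C_iff.1 h7 0
      rwa [coeff_C_zero] at h8
    have h9 : P.comap C = q := le_antisymm h6 hqp
    rw [h9]
    exact hq

end Pool.Agent.Helper7.GU2
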