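import Pool.Agent.Helper88.GU.St

/-!
# Project GU, second hand-in (MP_b1e6de_al), module XN

Normalisation modulo an ideal.
-/

set_option autoImplicit false

namespace Pool.Agent.Helper7.GU2

open Polynomial
open Pool.Agent.Helper91.GU Pool.Agent.Helper88.GU

universe u

theorem hXN (hB0 : Pool.Agent.Helper91.GU.StB0.{u}) (hEB : Pool.Agent.Helper91.GU.StEB.{u}) :
    Pool.Agent.Helper88.GU.StXN.{u} := by
  intro A _ _ 𝔟 s hdim v d hum
  -- an index bijection moving the last position to `0`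
  obtain ⟨σ₀⟩ : Nonempty (Unit ⊕ Fin (s + 1) ≃ Fin (s + 1 + 1)) := by
    refine ⟨Fintype.equivOfCardEq ?_⟩
    simp only [Fintype.card_sum, Fintype.card_unit, Fintype.card_fin]
    omega
  obtain ⟨σ, hσ⟩ : ∃ σ : Unit ⊕ Fin (s + 1) ≃ Fin (s + 1 + 1), σ (Sum.inr (Fin.last s)) = 0 :=
    ⟨σ₀.trans (Equiv.swap (σ₀ (Sum.inr (Fin.last s))) 0), by
      simp only [Equiv.trans_apply, Equiv.swap_apply_left]⟩
  obtain ⟨φ, hφ⟩ : ∃ φ : A →+* A ⧸ 𝔟, φ = Ideal.Quotient.mk 𝔟 := ⟨_, rfl⟩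
  have hφs : Function.Surjective φ := by
    rw [hφ]
    exact Ideal.Quotient.mk_surjective
  obtain ⟨w, hw⟩ : ∃ w : Fin (s + 1 + 1) → A, w = row v d ∘ σ.symm := ⟨_, rfl⟩
  have hum' : Um (fun j => φ (w j)) := by
    obtain ⟨y, hy⟩ := hum
    refine ⟨fun j => φ (y (σ.symm j)), ?_⟩
    have h1 : w ⬝ᵥ (y ∘ σ.symm) = 1 := by
      rw [hw, comp_equiv_dotProduct_comp_equiv]
      exact hy
    have h2 := congrArg φ h1
    rw [map_one] at h2
    rw [← h2]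
    simp only [dotProduct, map_sum, map_mul, Function.comp_apply]
  have hdim' : ringKrullDim (A ⧸ 𝔟) + 2 ≤ ((s + 1 + 1 : ℕ) : WithBot ℕ∞) := by
    have h1 : ((s + 1 + 1 : ℕ) : WithBot ℕ∞) = (s : WithBot ℕ∞) + 2 := by
      push_cast
      rw [add_assoc]
      norm_num
    rw [h1]
    gcongr
  obtain ⟨e, he, hve⟩ := hEB (A ⧸ 𝔟) (s + 1) hdim' (fun j => φ (w j)) hum'
  obtain ⟨-, -, -, -, -, hdet, hlift⟩ := hB0 A (A ⧸ 𝔟) φ (Fin (s + 1 + 1))
  obtain ⟨e', he', hmap⟩ := hlift hφs e he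
  have hdet' : e'.det = 1 := (hdet e' he').2.1
  obtain ⟨x, hx⟩ : ∃ x : Fin (s + 1 + 1) → A, x = Matrix.vecMul w e' := ⟨_, rfl⟩
  have hxφ : ∀ j, φ (x j) = (Pi.single 0 1 : Fin (s + 1 + 1) → A ⧸ 𝔟) j := by
    intro j
    rw [← hve, ← hmap, hx]
    simp only [Matrix.vecMul, dotProduct, map_sum, map_mul, Matrix.map_apply]
  have hmem : ∀ i : Unit ⊕ Fin (s + 1), i ≠ Sum.inr (Fin.last s) → x (σ i) ∈ 𝔟 := by
    intro i hi
    have h1 : σ i ≠ 0 := by
      intro h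
      rw [← hσ] at h
      exact hi (σ.injective h)
    have h2 := hxφ (σ i)
    rw [Pi.single_eq_of_ne h1, hφ] at h2
    exact Ideal.Quotient.eq_zero_iff_mem.1 h2
  refine ⟨x (σ (Sum.inl ())), fun j => x (σ (Sum.inr j)), ⟨e'.submatrix σ σ, ?_, ?_⟩, ?_, ?_, ?_⟩
  · rw [Matrix.det_submatrix_equiv_self, hdet']
    exact isUnit_one
  · rw [Matrix.submatrix_vecMul_equiv, ← hw, ← hx]
    funext i
    rcases i with i | i
    · rfl
    · rfl
  · exact hmem _ (by simp)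
  · intro j
    refine hmem _ ?_
    intro h
    have h1 := Sum.inr_injective h
    exact (Fin.castSucc_lt_last j).ne h1
  · have h2 := hxφ (σ (Sum.inr (Fin.last s)))
    rw [hσ, Pi.single_eq_same] at h2
    change x (σ (Sum.inr (Fin.last s))) - 1 ∈ 𝔟
    rw [hσ]
    apply Ideal.Quotient.eq_zero_iff_mem.1
    rw [← hφ, map_sub, h2, map_one, sub_self]

end Pool.Agent.Helper7.GU2
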